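import Mathlib

/-!
# The nef cone of a Fano variety whose extremal contractions are fibrations is simplicial

Let `X` be a smooth Fano variety over `ℂ`.  The structure `FanoVariety` records the closed points of
`X`, the irreducible curves, the nonzero effective Cartier divisors, the extremal rays `R` of the
cone of curves and their contractions `φ_R`, the classes of the curves in the space `N = N_1(X)` and
the classes of the divisors in the dual space `N^1(X)`, together with known theorems about them:

* elementary properties of intersection numbers (`div_nonneg`, `div_disjoint`, `div_ne_zero`);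
* `- K_X` is ample (`antiK_pos`);
* the cone theorem and the contraction theorem of Mori, Kawamata and Shokurov (`cone_theorem`,
  `ray_curve`, `ray_extremal`, `contracted_iff`);
* the theorem of Campana on quotients by proper algebraic relations (Kollár, Rational curves on
  algebraic varieties, IV.4.16), for the relation generated by the fibres of some of the `φ_R`
  (`quotient`);
* if `X` is connected by chains of fibres of some of the `φ_R`, the curves in these fibres
  generate `N_1(X)` (`generate`, Kollár, loc. cit., IV.3.13.3).

The theorem: if all the contractions `φ_R` are fibrations (of fibre type), the nef cone is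
simplicial, and the number of the extremal rays is the Picard number.

Proof.  Curves of each ray pass through all points, so all effective divisors are nef.  Let `I` be a
set of extremal rays that do not generate `N`.  Then `X` is not connected by chains of fibres of the
`φ_R`, `R ∈ I`; the pull-back `D` of a hypersurface of the quotient is disjoint from a general
equivalence class, which contains curves of all rays `R ∈ I`, so that `D` is nef, not numerically
trivial, and zero on the rays of `I`.  Applied to a basis consisting of rays without one of its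
elements this gives, up to positive factors, the dual basis; so it is nonnegative on all rays, and
all of them are nonnegative combinations of the rays in the basis.
-/

set_option autoImplicit false

namespace Pool.Agent.Results.MP_cc17a8_ag.NefSimplicial

open Module

/-- The relation generated by `x ~ y` if `x` and `y` lie in the same fibre of `φ_R` for some
`R ∈ I`: the points `x` and `y` are connected by a chain of fibres of the `φ_R`, `R ∈ I`. -/
def Chain {Pt Ray : Type} (fibre : Ray → Pt → Pt → Prop) (I : Set Ray) : Pt → Pt → Prop :=
  Relation.EqvGen fun x y => ∃ R ∈ I, fibre R x y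

/-- A smooth Fano variety `X` over `ℂ`: its closed points `Pt`, its irreducible curves `Curve`, its
nonzero effective Cartier divisors `Div`, the extremal rays `Ray` of its cone of curves, and the
space `N = N_1(X)` of the 1-cycles with real coefficients modulo numerical equivalence (its dual
space is `N^1(X)`). -/
structure FanoVariety (Pt Curve Div Ray N : Type) [Fintype Ray] [AddCommGroup N] [Module ℝ N] where
  /-- the points of a curve -/
  pts : Curve → Set Pt
  /-- the class of a curve in `N_1(X)` -/
  curveClass : Curve → N
  /-- the support of an effective divisor -/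
  supp : Div → Set Pt
  /-- the class of a divisor in `N^1(X)` (the intersection number with a curve `C` is the value at
  `curveClass C`) -/
  divClass : Div → Dual ℝ N
  /-- the class of the anticanonical divisor -/
  antiK : Dual ℝ N
  /-- a generator of an extremal ray -/
  rayClass : Ray → N
  /-- `fibre R x y`: the contraction `φ_R` of `R` has the same value at `x` and `y` -/
  fibre : Ray → Pt → Pt → Prop
  /-- `N_1(X)` is generated by the classes of the curves -/
  curve_span : Submodule.span ℝ (Set.range curveClass) = ⊤
  /-- a divisor is not all of `X` -/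
  supp_ne : ∀ D, ∃ x, x ∉ supp D
  /-- a nonzero effective divisor is not numerically trivial -/
  div_ne_zero : ∀ D, divClass D ≠ 0
  /-- an effective divisor has nonnegative degree on a curve that it does not contain -/
  div_nonneg : ∀ D C, ¬ pts C ⊆ supp D → 0 ≤ divClass D (curveClass C)
  /-- a divisor has degree zero on a curve that it does not meet -/
  div_disjoint : ∀ D C, Disjoint (pts C) (supp D) → divClass D (curveClass C) = 0
  /-- `- K_X` is ample, so positive on all curves -/
  antiK_pos : ∀ C, 0 < antiK (curveClass C)
  /-- cone theorem: the cone of curves is generated by the (finitely many) extremal rays -/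
  cone_theorem : ∀ C, ∃ c : Ray → ℝ, (∀ R, 0 ≤ c R) ∧ curveClass C = ∑ R, c R • rayClass R
  /-- each extremal ray is generated by the class of a curve -/
  ray_curve : ∀ R, ∃ C, curveClass C = rayClass R
  /-- the rays are extremal and different -/
  ray_extremal : ∀ R (c : Ray → ℝ), (∀ R', 0 ≤ c R') → rayClass R = ∑ R', c R' • rayClass R' →
    ∀ R', R' ≠ R → c R' = 0
  /-- contraction theorem: `φ_R` contracts exactly the curves with class in `R` -/
  contracted_iff : ∀ R C, (∀ x ∈ pts C, ∀ y ∈ pts C, fibre R x y) ↔
    ∃ c : ℝ, 0 ≤ c ∧ curveClass C = c • rayClass R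
  /-- Campana's theorem for the fibres of the `φ_R`, `R ∈ I`: there is a proper morphism
  `π : X⁰ → Z⁰` of an open dense subset of `X` whose fibres are equivalence classes of `Chain`.  So
  `Z⁰` is a point and `X` is connected by chains, or the closure `D` of the inverse image of a
  hypersurface of `Z⁰` is disjoint from some equivalence class (the fibre of a point outside of the
  hypersurface). -/
  quotient : ∀ I : Set Ray, (∀ x y, Chain fibre I x y) ∨
    ∃ D x, ∀ y, Chain fibre I x y → y ∉ supp D
  /-- if `X` is connected by chains of fibres of the `φ_R`, `R ∈ I`, the curves in these fibres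
  generate `N_1(X)` -/
  generate : ∀ I : Set Ray, (∀ x y, Chain fibre I x y) →
    Submodule.span ℝ {v | ∃ R ∈ I, ∃ C, (∀ x ∈ pts C, ∀ y ∈ pts C, fibre R x y) ∧
      v = curveClass C} = ⊤

section

variable {Pt Curve Div Ray N : Type} [Fintype Ray] [AddCommGroup N] [Module ℝ N]

/-- All extremal contractions `φ_R` are fibrations (`dim φ_R(X) < dim X`): through each point there
is a curve that is contracted by `φ_R`. -/
def AllFibrations (X : FanoVariety Pt Curve Div Ray N) : Prop :=
  ∀ R x, ∃ C, x ∈ X.pts C ∧ ∀ y ∈ X.pts C, ∀ z ∈ X.pts C, X.fibre R y z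

/-- The nef cone: the classes in `N^1(X)` that are nonnegative on all curves. -/
def nefCone (X : FanoVariety Pt Curve Div Ray N) : Set (Dual ℝ N) :=
  {L | ∀ C, 0 ≤ L (X.curveClass C)}

/-- A cone in a vector space is simplicial if it is generated by the elements of a basis. -/
def IsSimplicial {V : Type} [AddCommGroup V] [Module ℝ V] (K : Set V) : Prop :=
  ∃ (ι : Type) (_ : Fintype ι) (b : Basis ι ℝ V), K = {v | ∀ i, 0 ≤ b.repr v i}

namespace FanoVariety

variable (X : FanoVariety Pt Curve Div Ray N)

include X

lemma rayClass_ne_zero (R : Ray) : X.rayClass R ≠ 0 := by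
  obtain ⟨C, hC⟩ := X.ray_curve R
  intro h
  have h1 := X.antiK_pos C
  rw [hC, h, map_zero] at h1
  exact lt_irrefl _ h1

lemma pos_of_contracted {R : Ray} {C : Curve}
    (h : ∀ x ∈ X.pts C, ∀ y ∈ X.pts C, X.fibre R x y) :
    ∃ c : ℝ, 0 < c ∧ X.curveClass C = c • X.rayClass R := by
  obtain ⟨c, hc, hC⟩ := (X.contracted_iff R C).mp h
  refine ⟨c, lt_of_le_of_ne hc ?_, hC⟩
  rintro rfl
  have h1 := X.antiK_pos C
  rw [hC, zero_smul, map_zero] at h1
  exact lt_irrefl _ h1

/-- Effective divisors are nonnegative on all rays. -/
lemma div_ray_nonneg (hX : AllFibrations X) (D : Div) (R : Ray) :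
    0 ≤ X.divClass D (X.rayClass R) := by
  obtain ⟨x, hx⟩ := X.supp_ne D
  obtain ⟨C, hxC, hC⟩ := hX R x
  obtain ⟨c, hc, hcl⟩ := X.pos_of_contracted hC
  have h1 := X.div_nonneg D C fun h => hx (h hxC)
  rw [hcl, map_smul, smul_eq_mul] at h1
  exact nonneg_of_mul_nonneg_right h1 hc

/-- The divisor obtained from the quotient is zero on the rays of `I`. -/
lemma div_ray_zero (hX : AllFibrations X) (I : Set Ray) (D : Div) (x : Pt)
    (h : ∀ y, Chain X.fibre I x y → y ∉ X.supp D) (R : Ray) (hR : R ∈ I) :
    X.divClass D (X.rayClass R) = 0 := by
  obtain ⟨C, hxC, hC⟩ := hX R x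
  obtain ⟨c, hc, hcl⟩ := X.pos_of_contracted hC
  have h1 := X.div_disjoint D C (Set.disjoint_left.mpr fun y hy =>
    h y (Relation.EqvGen.rel _ _ ⟨R, hR, hC x hxC y hy⟩))
  rw [hcl, map_smul, smul_eq_mul] at h1
  exact (mul_eq_zero.mp h1).resolve_left hc.ne'

/-- Rays that do not generate `N` are killed by a nonzero class that is nonnegative on all rays. -/
lemma exists_functional (hX : AllFibrations X) (I : Set Ray)
    (hI : Submodule.span ℝ (X.rayClass '' I) ≠ ⊤) :
    ∃ L : Dual ℝ N, L ≠ 0 ∧ (∀ R, 0 ≤ L (X.rayClass R)) ∧ ∀ R ∈ I, L (X.rayClass R) = 0 := by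
  rcases X.quotient I with h | ⟨D, x, h⟩
  · exfalso
    apply hI
    rw [eq_top_iff, ← X.generate I h, Submodule.span_le]
    rintro _ ⟨R, hR, C, hC, rfl⟩
    obtain ⟨c, _, hcl⟩ := X.pos_of_contracted hC
    rw [hcl]
    exact Submodule.smul_mem _ _ (Submodule.subset_span ⟨R, hR, rfl⟩)
  · exact ⟨X.divClass D, X.div_ne_zero D, X.div_ray_nonneg hX D, X.div_ray_zero hX I D x h⟩

lemma span_rays : Submodule.span ℝ (Set.range X.rayClass) = ⊤ := by
  rw [eq_top_iff, ← X.curve_span, Submodule.span_le]
  rintro _ ⟨C, rfl⟩
  obtain ⟨c, -, hC⟩ := X.cone_theorem C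
  rw [hC]
  exact Submodule.sum_mem _ fun R _ => Submodule.smul_mem _ _ (Submodule.subset_span ⟨R, rfl⟩)

/-- The extremal rays are linearly independent. -/
lemma linearIndependent_rays (hX : AllFibrations X) : LinearIndependent ℝ X.rayClass := by
  classical
  obtain ⟨κ, a, ha, hspan, hind⟩ := exists_linearIndependent' ℝ X.rayClass
  have : Finite κ := Finite.of_injective a ha
  have : Fintype κ := Fintype.ofFinite κ
  let b : Basis κ ℝ N := Basis.mk hind (by rw [hspan, X.span_rays])
  have hb : ∀ k, b k = X.rayClass (a k) := fun k => by simp [b]
  -- the coordinates of the rays are nonnegative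
  have hnn : ∀ R k, 0 ≤ b.repr (X.rayClass R) k := by
    intro R k
    have hI : Submodule.span ℝ (X.rayClass '' (a '' {j | j ≠ k})) ≠ ⊤ := by
      intro h
      have h1 : (X.rayClass ∘ a) k ∉ Submodule.span ℝ ((X.rayClass ∘ a) '' {j | j ≠ k}) :=
        hind.notMem_span_image (by simp)
      rw [Set.image_comp, h] at h1
      exact h1 trivial
    obtain ⟨L, hL, hL1, hL2⟩ := X.exists_functional hX _ hI
    have hL3 : ∀ j, j ≠ k → L (b j) = 0 := fun j hj => by
      rw [hb]
      exact hL2 _ ⟨j, hj, rfl⟩
    have hL4 : ∀ v, L v = b.repr v k * L (b k) := by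
      intro v
      conv_lhs => rw [← b.sum_repr v]
      rw [map_sum, Finset.sum_eq_single k]
      · rw [map_smul, smul_eq_mul]
      · intro j _ hj
        rw [map_smul, hL3 j hj, smul_zero]
      · intro h
        exact absurd (Finset.mem_univ k) h
    have hL5 : 0 < L (b k) := by
      refine lt_of_le_of_ne (by rw [hb]; exact hL1 _) fun h => hL ?_
      ext v
      rw [hL4 v, ← h, mul_zero, LinearMap.zero_apply]
    have h2 := hL1 R
    rw [hL4] at h2
    exact nonneg_of_mul_nonneg_left h2 hL5
  -- all rays are in the basis
  have hsurj : Function.Surjective a := by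
    intro R
    by_contra hR
    have hR' : ∀ k, a k ≠ R := fun k h => hR ⟨k, h⟩
    let c : Ray → ℝ := fun R' => ∑ k, if a k = R' then b.repr (X.rayClass R) k else 0
    have hc0 : ∀ R', 0 ≤ c R' := fun R' => Finset.sum_nonneg fun k _ => by
      split_ifs
      · exact hnn R k
      · exact le_rfl
    have hc1 : X.rayClass R = ∑ R', c R' • X.rayClass R' := by
      simp only [c, Finset.sum_smul, ite_smul, zero_smul]
      rw [Finset.sum_comm]
      simp only [Finset.sum_ite_eq, Finset.mem_univ, if_true]
      conv_lhs => rw [← b.sum_repr (X.rayClass R)]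
      exact Finset.sum_congr rfl fun k _ => by rw [hb]
    have hc2 := X.ray_extremal R c hc0 hc1
    apply X.rayClass_ne_zero R
    rw [hc1]
    refine Finset.sum_eq_zero fun R' _ => ?_
    by_cases h : R' = R
    · subst h
      have : c R' = 0 := Finset.sum_eq_zero fun k _ => if_neg (hR' k)
      rw [this, zero_smul]
    · rw [hc2 R' h, zero_smul]
  let e : κ ≃ Ray := Equiv.ofBijective a ⟨ha, hsurj⟩
  exact (linearIndependent_equiv e).mp hind

end FanoVariety

/-- Let `X` be a smooth Fano variety all of whose extremal contractions are fibrations.  Then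
`Nef(X)` is a simplicial cone, and the number of the extremal rays is the Picard number. -/
theorem result (X : FanoVariety Pt Curve Div Ray N) (hX : AllFibrations X) :
    IsSimplicial (nefCone X) ∧ Fintype.card Ray = finrank ℝ N := by
  classical
  let b : Basis Ray ℝ N := Basis.mk (X.linearIndependent_rays hX) (by rw [X.span_rays])
  have hb : ∀ R, b R = X.rayClass R := fun R => by simp [b]
  refine ⟨⟨Ray, inferInstance, b.dualBasis, ?_⟩, (finrank_eq_card_basis b).symm⟩
  ext L
  simp only [nefCone, Set.mem_ofPred_eq, Basis.dualBasis_repr]
  constructor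
  · intro h R
    obtain ⟨C, hC⟩ := X.ray_curve R
    rw [hb, ← hC]
    exact h C
  · intro h C
    obtain ⟨c, hc, hC⟩ := X.cone_theorem C
    rw [hC, map_sum]
    refine Finset.sum_nonneg fun R _ => ?_
    rw [map_smul, smul_eq_mul, ← hb]
    exact mul_nonneg (hc R) (h R)

end

end Pool.Agent.Results.MP_cc17a8_ag.NefSimplicial
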